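import Pool.Agent.Helper67.EQP.Orac

set_option autoImplicit false

/-!
# The oracle of the noisy device

From the oracle of `Helper67.EQP.Orac` (compensated Forrelation at every length, immune to a given
countable family of alternating machines) we pass to an oracle in which the first truth table,
together with a self dual bent function (the reference beam), is stored in the block parity code.
-/

namespace Pool.Agent.Helper73.NQ

open Finset Function Classical
open Pool.Agent.Helper67.EQP

/-- Is the number of ones odd? -/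
def parity {ι : Type} [Fintype ι] (z : ι → Bool) : Bool :=
  decide (Odd (univ.filter (fun i => z i = true)).card)

theorem spin_parity {ι : Type} [Fintype ι] (z : ι → Bool) : spin (parity z) = ∏ i, spin (z i) := by
  have h1 : ∏ i, spin (z i) = (-1) ^ (univ.filter (fun i => z i = true)).card := by
    unfold spin
    rw [prod_ite, prod_const, prod_const_one, mul_one]
  rw [h1]
  unfold parity spin
  by_cases h : Odd (univ.filter (fun i => z i = true)).card
  · rw [h.neg_one_pow, if_pos (by simpa using h)]
  · rw [(Nat.not_odd_iff_even.mp h).neg_one_pow, if_neg (by simpa using h)]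

/-- The qubits of the device for the parameter `m`: `2m + 5` blocks of `2m + 1` qubits. -/
abbrev Qb (m : ℕ) : Type := Fin (2 * m + 5) × Fin (2 * m + 1)

/-- The string read by the query of all qubits. -/
def ustr (m : ℕ) (z : Qb m → Bool) : List Bool :=
  List.ofFn (fun i => z (finProdFinEquiv.symm i))

/-- The string read by the classical query. -/
def vstr (m : ℕ) (k : Fin (2 * m + 4) → Bool) : List Bool := List.ofFn k

/-- The quadratic form `k_0 k_1 + k_2 k_3 + ...`. -/
def quad (m : ℕ) (k : Fin (2 * m + 4) → Bool) : Bool :=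
  parity (fun i : Fin (m + 2) => k ⟨2 * i, by omega⟩ && k ⟨2 * i + 1, by omega⟩)

/-- The parities of the blocks. -/
def bpar (m : ℕ) (z : Qb m → Bool) (j : Fin (2 * m + 5)) : Bool := parity (fun t => z (j, t))

/-- The bits stored at the long strings. -/
def ubit (m : ℕ) (x : Idx m → Bool) (z : Qb m → Bool) : Bool :=
  if bpar m z (Fin.last _) = true then quad m (fun i => bpar m z i.castSucc)
  else x (Sum.inl (Sum.inl (fun i => bpar m z i.castSucc)))

/-- The bits stored at the short strings. -/
def vbit (m : ℕ) (x : Idx m → Bool) (k : Fin (2 * m + 4) → Bool) : Bool :=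
  (x (Sum.inl (Sum.inr k))).xor (quad m k)

/-- The oracle. -/
noncomputable def newA (X : Blocks) (s : List Bool) : Bool :=
  decide ((∃ n z, s = ustr (n + 1) z ∧ ubit (n + 1) (X n) z = true) ∨
    ∃ n k, s = vstr (n + 1) k ∧ vbit (n + 1) (X n) k = true)

section strings

theorem ustr_length (m : ℕ) (z : Qb m → Bool) : (ustr m z).length = (2 * m + 5) * (2 * m + 1) :=
  List.length_ofFn

theorem vstr_length (m : ℕ) (k : Fin (2 * m + 4) → Bool) : (vstr m k).length = 2 * m + 4 :=
  List.length_ofFn

theorem ustr_inj {m : ℕ} {z z' : Qb m → Bool} (h : ustr m z = ustr m z') : z = z' := by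
  unfold ustr at h
  have h1 := List.ofFn_injective h
  funext q
  have h2 := congrFun h1 (finProdFinEquiv q)
  simpa using h2

theorem vstr_inj {m : ℕ} {k k' : Fin (2 * m + 4) → Bool} (h : vstr m k = vstr m k') : k = k' :=
  List.ofFn_injective h

theorem wl_inj {a b : ℕ} (h : (2 * a + 5) * (2 * a + 1) = (2 * b + 5) * (2 * b + 1)) : a = b := by
  rcases Nat.lt_trichotomy a b with h1 | h1 | h1
  · exact absurd h (by nlinarith)
  · exact h1
  · exact absurd h (by nlinarith)

theorem ustr_ne_vstr {m m' : ℕ} (z : Qb m → Bool) (k : Fin (2 * m' + 4) → Bool) :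
    ustr m z ≠ vstr m' k := by
  intro h
  have h1 := congrArg List.length h
  rw [ustr_length, vstr_length] at h1
  have h2 : (2 * m + 5) * (2 * m + 1) = 2 * (2 * m * m + 6 * m + 2) + 1 := by ring
  omega

/-- Every string of the right length is read by the device. -/
theorem exists_ustr (m : ℕ) (s : List Bool) (hs : s.length = (2 * m + 5) * (2 * m + 1)) :
    ∃ z, s = ustr m z := by
  refine ⟨fun q => s.get (Fin.cast hs.symm (finProdFinEquiv q)), ?_⟩
  unfold ustr
  simp only [Equiv.apply_symm_apply]
  apply List.ext_getElem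
  · rw [List.length_ofFn, hs]
  · intro i h1 h2
    rw [List.getElem_ofFn]
    rfl

theorem newA_ustr (X : Blocks) (n : ℕ) (z : Qb (n + 1) → Bool) :
    newA X (ustr (n + 1) z) = ubit (n + 1) (X n) z := by
  rw [Bool.eq_iff_iff]
  unfold newA
  rw [decide_eq_true_eq]
  constructor
  · rintro (⟨n', z', h1, h2⟩ | ⟨n', k, h1, _⟩)
    · have h3 : n = n' := by
        have h4 := congrArg List.length h1
        rw [ustr_length, ustr_length] at h4
        have := wl_inj h4
        omega
      subst h3
      rw [ustr_inj h1]
      exact h2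
    · exact absurd h1 (ustr_ne_vstr z k)
  · intro h
    exact Or.inl ⟨n, z, rfl, h⟩

theorem newA_vstr (X : Blocks) (n : ℕ) (k : Fin (2 * (n + 1) + 4) → Bool) :
    newA X (vstr (n + 1) k) = vbit (n + 1) (X n) k := by
  rw [Bool.eq_iff_iff]
  unfold newA
  rw [decide_eq_true_eq]
  constructor
  · rintro (⟨n', z', h1, _⟩ | ⟨n', k', h1, h2⟩)
    · exact absurd h1.symm (ustr_ne_vstr z' k)
    · have h3 : n = n' := by
        have h4 := congrArg List.length h1
        rw [vstr_length, vstr_length] at h4
        omega
      subst h3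
      rw [vstr_inj h1]
      exact h2
  · intro h
    exact Or.inr ⟨n, k, rfl, h⟩

theorem newA_else (X : Blocks) (s : List Bool) (h1 : ∀ n z, s ≠ ustr (n + 1) z)
    (h2 : ∀ n k, s ≠ vstr (n + 1) k) : newA X s = false := by
  unfold newA
  rw [decide_eq_false_iff_not]
  rintro (⟨n, z, h, _⟩ | ⟨n, k, h, _⟩)
  · exact h1 n z h
  · exact h2 n k h

/-- Every query to the new oracle is a constant or a query to the old oracle, up to negation. -/
theorem newA_cases (s : List Bool) :
    (∃ b, ∀ X, newA X s = b) ∨ ∃ b s', ∀ X, newA X s = xor b (strA X s') := by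
  by_cases h1 : ∃ n z, s = ustr (n + 1) z
  · obtain ⟨n, z, rfl⟩ := h1
    by_cases hc : bpar (n + 1) z (Fin.last _) = true
    · left
      refine ⟨quad (n + 1) (fun i => bpar (n + 1) z i.castSucc), fun X => ?_⟩
      rw [newA_ustr, ubit, if_pos hc]
    · right
      refine ⟨false, enc (n + 1) (Sum.inl (fun i => bpar (n + 1) z i.castSucc), false),
        fun X => ?_⟩
      rw [newA_ustr, ubit, if_neg hc, Bool.false_xor, Bool.eq_iff_iff, strA_enc]
      constructor
      · intro h
        exact ⟨_, rfl, h⟩
      · rintro ⟨i, h3, h4⟩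
        have h5 : Sum.inl (Sum.inl (fun i => bpar (n + 1) z i.castSucc)) = i := by
          simpa [posn] using h3
        rw [h5]
        exact h4
  · by_cases h2 : ∃ n k, s = vstr (n + 1) k
    · obtain ⟨n, k, rfl⟩ := h2
      right
      refine ⟨quad (n + 1) k, enc (n + 1) (Sum.inl k, true), fun X => ?_⟩
      rw [newA_vstr, vbit, Bool.xor_comm]
      congr 1
      rw [Bool.eq_iff_iff, strA_enc]
      constructor
      · intro h
        exact ⟨_, rfl, h⟩
      · rintro ⟨i, h3, h4⟩
        have h5 : Sum.inl (Sum.inr k) = i := by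
          simpa [posn] using h3
        rw [h5]
        exact h4
    · left
      refine ⟨false, fun X => newA_else X s ?_ ?_⟩
      · intro n z h
        exact h1 ⟨n, z, h⟩
      · intro n k h
        exact h2 ⟨n, k, h⟩

end strings

section trans

variable {ι ι' : Type}

/-- A node at which a known bit or a query to another oracle, up to negation, is asked. -/
def tnode (r : Bool ⊕ (Bool × ι')) (t0 t1 : DTree ι') : DTree ι' :=
  match r with
  | Sum.inl false => t0
  | Sum.inl true => t1
  | Sum.inr (false, i') => .node i' t0 t1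
  | Sum.inr (true, i') => .node i' t1 t0

/-- The bit found at such a node. -/
def rval (A' : ι' → Bool) : Bool ⊕ (Bool × ι') → Bool
  | Sum.inl b => b
  | Sum.inr (b, i') => xor b (A' i')

theorem tnode_eval (A' : ι' → Bool) (r : Bool ⊕ (Bool × ι')) (t0 t1 : DTree ι') :
    (tnode r t0 t1).eval A' = if rval A' r then t1.eval A' else t0.eval A' := by
  rcases r with b | ⟨b, i'⟩
  · cases b <;> simp [tnode, rval]
  · cases b <;> cases h : A' i' <;> simp [tnode, rval, DTree.eval, h]

theorem tnode_depth (r : Bool ⊕ (Bool × ι')) (t0 t1 : DTree ι') :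
    (tnode r t0 t1).depth ≤ max t0.depth t1.depth + 1 := by
  rcases r with b | ⟨b, i'⟩
  · cases b <;> simp only [tnode] <;> omega
  · cases b <;> simp only [tnode, DTree.depth] <;> omega

/-- Replace every label by a known bit or by a label of another oracle, up to negation. -/
def tsub (σ : ι → Bool ⊕ (Bool × ι')) : DTree ι → DTree ι'
  | .leaf b => .leaf b
  | .node i t0 t1 => tnode (σ i) (tsub σ t0) (tsub σ t1)

theorem tsub_depth (σ : ι → Bool ⊕ (Bool × ι')) (T : DTree ι) : (tsub σ T).depth ≤ T.depth := by
  induction T with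
  | leaf b => exact le_rfl
  | node i t0 t1 ih0 ih1 =>
    have h := tnode_depth (σ i) (tsub σ t0) (tsub σ t1)
    simp only [tsub, DTree.depth]
    omega

/-- The bit which replaces the answer to a query. -/
def sval (σ : ι → Bool ⊕ (Bool × ι')) (A' : ι' → Bool) (i : ι) : Bool := rval A' (σ i)

theorem tsub_eval (σ : ι → Bool ⊕ (Bool × ι')) (A' : ι' → Bool) (T : DTree ι) :
    (tsub σ T).eval A' = T.eval (sval σ A') := by
  induction T with
  | leaf b => rfl
  | node i t0 t1 ih0 ih1 =>
    simp only [tsub, DTree.eval, sval]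
    rw [tnode_eval, ih0, ih1]
    rfl

/-- The translated machine. -/
def msub {t k : ℕ → ℕ} (σ : List Bool → Bool ⊕ (Bool × List Bool)) (M : PHMachine t k) :
    PHMachine t k where
  c := M.c
  tree := fun n y => tsub σ (M.tree n y)
  depth_le := fun n y => (tsub_depth σ _).trans (M.depth_le n y)

theorem msub_accepts {t k : ℕ → ℕ} (σ : List Bool → Bool ⊕ (Bool × List Bool)) (M : PHMachine t k)
    (A' : List Bool → Bool) (n : ℕ) :
    (msub σ M).Accepts A' n ↔ M.Accepts (sval σ A') n := by
  unfold PHMachine.Accepts msub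
  simp only [tsub_eval]

end trans

/-- The oracle: the promise holds at all lengths, the language of the yes-instances is infinite and
no machine of the family accepts an infinite subset of it. -/
theorem exists_newA {t k : ℕ → ℕ} (hs : Slow t k) (M : ℕ → PHMachine t k) :
    ∃ X : Blocks, (∀ n, Yes (n + 1) (X n) ∨ No (n + 1) (X n)) ∧
      {n | Yes (n + 1) (X n)}.Infinite ∧
      ∀ i, {n | (M i).Accepts (newA X) n} ⊆ {n | Yes (n + 1) (X n)} →
        {n | (M i).Accepts (newA X) n}.Finite := by
  obtain ⟨σ, hσ⟩ : ∃ σ : List Bool → Bool ⊕ (Bool × List Bool), ∀ X, sval σ (strA X) = newA X := by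
    have h : ∀ s, ∃ r : Bool ⊕ (Bool × List Bool), ∀ X,
        sval (fun _ : Unit => r) (strA X) () = newA X s := by
      intro s
      rcases newA_cases s with ⟨b, hb⟩ | ⟨b, s', hb⟩
      · exact ⟨Sum.inl b, fun X => (hb X).symm⟩
      · exact ⟨Sum.inr (b, s'), fun X => (hb X).symm⟩
    choose σ hσ using h
    exact ⟨σ, fun X => funext fun s => hσ s X⟩
  obtain ⟨X, h1, h2, h3⟩ := exists_oracle hs (fun i => msub σ (M i))
  have hacc : ∀ i, {n | (msub σ (M i)).Accepts (strA X) n} = {n | (M i).Accepts (newA X) n} := by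
    intro i
    ext n
    change (msub σ (M i)).Accepts (strA X) n ↔ (M i).Accepts (newA X) n
    rw [msub_accepts, hσ]
  refine ⟨X, h1, h2, fun i => ?_⟩
  have h4 := h3 i
  rw [hacc i] at h4
  exact h4

/-- The unnormalised forrelation of the two truth tables. -/
def forr (m : ℕ) (x : Idx m → Bool) : ℤ :=
  ∑ i, ∑ k, had i k * spin (x (Sum.inl (Sum.inl i))) * spin (x (Sum.inl (Sum.inr k)))

theorem abs_tail (m : ℕ) (x : Idx m → Bool) : |∑ j, spin (x (Sum.inr j))| ≤ 8 ^ m := by
  refine (abs_sum_le_sum_abs _ _).trans ?_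
  have h1 : ∀ j : Fin (3 * m) → Bool, |spin (x (Sum.inr j))| = 1 := by
    intro j
    unfold spin
    split_ifs <;> simp
  rw [sum_congr rfl (fun j _ => h1 j)]
  simp only [sum_const, card_univ, Fintype.card_fun, Fintype.card_bool, Fintype.card_fin,
    nsmul_eq_mul, mul_one]
  push_cast
  rw [pow_mul]
  norm_num

theorem forr_yes {m : ℕ} {x : Idx m → Bool} (h : Yes m x) : 63 * 8 ^ m ≤ 2 * forr m x := by
  have h1 := abs_le.mp (abs_tail m x)
  unfold Yes score at h
  unfold forr
  linarith [h1.2]

theorem forr_no {m : ℕ} {x : Idx m → Bool} (h : No m x) : 2 * forr m x ≤ -(63 * 8 ^ m) := by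
  have h1 := abs_le.mp (abs_tail m x)
  unfold No score at h
  unfold forr
  linarith [h1.1]

end Pool.Agent.Helper73.NQ
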