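import Pool.Agent.Helper65.NQ.Flag
import Pool.Agent.Helper74.NQ.Bridge
import Pool.Agent.Helper80.NQ.Iface

set_option autoImplicit false

/-!
# The oracle at the strings of the device, and the votes, in terms of the classes of qubits
-/

namespace Pool.Agent.Helper73.NQ

open Finset Function
open Pool.Agent.Helper67.EQP (Idx sg spin)
open Pool.Agent.Helper65.NQ (dec flag beam gval)
open Pool.Agent.Helper74.NQ (comb clH clB body maj_eq par_comb dec_comb)
open Pool.Agent.Helper80.NQ (Hd Bd Qb pr Stores size cls maj vote look)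

/-- The oracle at the strings of the device, if the header is decoded correctly. -/
theorem good_string {A : List Bool → Bool} {κ : List Bool} {X : Idx (Helper67.EQP.par κ) → Bool}
    (hA : Stores A κ X) (M : ℕ) (hsz : 13 * κ.length + 20 ≤ size κ M)
    (hh : Hd κ M → Bool) (hhd : dec (clH κ M) hh = κ.get) (x : Bd κ M → Bool) :
    A (List.ofFn (comb hh x)) =
      flag (beam (fun u => X (Sum.inl (Sum.inl u)))
        (Helper65.NQ.quad (m := Helper67.EQP.par κ))) (Helper65.NQ.par (clB κ M) x) := by
  have hp : ∀ j : Fin (2 * Helper67.EQP.par κ + 6),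
      pr (comb hh x) j.1 = Helper65.NQ.par (clB κ M) x j := fun j => par_comb hh x j
  rw [hA.1 M (comb hh x) hsz (fun j => by rw [dec_comb hh x j, hhd])]
  have h4 := hp ⟨2 * Helper67.EQP.par κ + 4, by omega⟩
  have h5 := hp ⟨2 * Helper67.EQP.par κ + 5, by omega⟩
  simp only at h4 h5
  have h6 : (fun i : Fin (2 * Helper67.EQP.par κ + 4) => pr (comb hh x) i.1) =
      Fin.init (Fin.init (Helper65.NQ.par (clB κ M) x)) := by
    funext i
    exact hp ⟨i.1, by omega⟩
  rw [h4, h5, h6]
  rfl

/-- The vote in terms of the decoded body. -/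
theorem vote_eq {A : List Bool → Bool} {κ : List Bool} {X : Idx (Helper67.EQP.par κ) → Bool}
    (hA : Stores A κ X) (M : ℕ) (z : Qb κ M → Bool) :
    ((vote A κ M z : ℤ) : ℝ) =
      gval (m := Helper67.EQP.par κ) (fun k => X (Sum.inl (Sum.inr k)))
        (dec (clB κ M) (body z)) := by
  have hp : ∀ j : Fin (2 * Helper67.EQP.par κ + 6), maj z j.1 = dec (clB κ M) (body z) j :=
    fun j => maj_eq z j
  have h4 := hp ⟨2 * Helper67.EQP.par κ + 4, by omega⟩
  have h5 := hp ⟨2 * Helper67.EQP.par κ + 5, by omega⟩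
  simp only at h4 h5
  have h6 : (fun i : Fin (2 * Helper67.EQP.par κ + 4) => maj z i.1) =
      Fin.init (Fin.init (dec (clB κ M) (body z))) := by
    funext i
    exact hp ⟨i.1, by omega⟩
  unfold vote gval
  rw [h4, h5, h6, hA.2]
  have h7 : ∀ (c : Bool) (a : ℤ), (((if c = true then a else 0 : ℤ)) : ℝ) =
      if c = true then (a : ℝ) else 0 := by
    intro c a
    split_ifs <;> simp
  rw [h7, ← Helper65.NQ.sg_spin]
  rfl

end Pool.Agent.Helper73.NQ
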