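import Pool.Agent.Helper67.EL.Defs
import Pool.Agent.Helper73.NQ.Orc

set_option autoImplicit false

/-!
# Translation of machines along a translation of oracles which does not lengthen the strings
-/

namespace Pool.Agent.Helper73.NQ

open Finset Function Classical
open Pool.Agent.Helper67.EQP (DTree OFun Alt)
open Pool.Agent.Helper67.EL

theorem tnode_all {ι' : Type} {P : ι' → Prop} {r : Bool ⊕ (Bool × ι')} {t0 t1 : DTree ι'}
    (h : ∀ b i', r = Sum.inr (b, i') → P i') (h0 : t0.All P) (h1 : t1.All P) :
    (tnode r t0 t1).All P := by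
  rcases r with b | ⟨b, i'⟩
  · cases b <;> assumption
  · cases b
    · exact ⟨h _ _ rfl, h0, h1⟩
    · exact ⟨h _ _ rfl, h1, h0⟩

theorem tsub_all {σ : List Bool → Bool ⊕ (Bool × List Bool)}
    (hσ : ∀ s b s', σ s = Sum.inr (b, s') → s'.length ≤ s.length) {L : ℕ}
    {T : DTree (List Bool)} (hT : T.All (fun s => s.length ≤ L)) :
    (tsub σ T).All (fun s => s.length ≤ L) := by
  induction T with
  | leaf b => exact trivial
  | node i t0 t1 ih0 ih1 =>
    obtain ⟨h, h0, h1⟩ := hT
    exact tnode_all (fun b i' hb => (hσ i b i' hb).trans h) (ih0 h0) (ih1 h1)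

variable {σ : List Bool → Bool ⊕ (Bool × List Bool)}
  (hσ : ∀ s b s', σ s = Sum.inr (b, s') → s'.length ≤ s.length)

/-- The translated machine. -/
def xsub {k : ℕ} (N : XMachine k) : XMachine k where
  time := N.time
  tree := fun x y => tsub σ (N.tree x y)
  depth_le := fun x y => (tsub_depth σ _).trans (N.depth_le x y)
  short := fun x y => tsub_all hσ (N.short x y)

theorem xsub_accepts {k : ℕ} (N : XMachine k) (B : List Bool → Bool) (x : List Bool) :
    (xsub hσ N).Accepts B x ↔ N.Accepts (sval σ B) x := by
  unfold XMachine.Accepts xsub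
  simp only [tsub_eval]

/-- The translated machine. -/
def msub2 {t : ℕ → ℕ} {k : ℕ} (M : TMachine t k) : TMachine t k where
  c := M.c
  tree := fun n y => tsub σ (M.tree n y)
  depth_le := fun n y => (tsub_depth σ _).trans (M.depth_le n y)
  short := fun n y => tsub_all hσ (M.short n y)

theorem msub2_accepts {t : ℕ → ℕ} {k : ℕ} (M : TMachine t k) (B : List Bool → Bool) (n : ℕ) :
    (msub2 hσ M).Accepts B n ↔ M.Accepts (sval σ B) n := by
  unfold TMachine.Accepts msub2
  simp only [tsub_eval]

/-- The translated function. -/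
def osub (F : OFun) : OFun where
  space := F.space
  F := fun B x => F.F (sval σ B) x
  loc := by
    intro B B' x h
    apply F.loc
    intro s hs
    unfold sval
    rcases hr : σ s with b | ⟨b, s'⟩
    · rfl
    · have h1 := hσ s b s' hr
      change xor b (B s') = xor b (B' s')
      rw [h s' (h1.trans hs)]

end Pool.Agent.Helper73.NQ
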