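import Pool.Agent.Helper67.EQP.CWorld
import Pool.Agent.Helper65.NQ.Beam
import Pool.Agent.Helper80.NQ.Defs
import Pool.Agent.Helper73.NQ.Orc

set_option autoImplicit false

/-!
# The translation of oracles: strings

`newB B` is obtained from the oracle `B` by a fixed translation: every query to `newB B` is a
constant or one query to `B` of at most the same length, up to negation.
-/

namespace Pool.Agent.Helper73.NQ

open Finset Function Classical
open Pool.Agent.Helper67.EQP (B0 bstr bstr_length)
open Pool.Agent.Helper80.NQ (pad look cls size)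

/-- The bent function `x_0 x_1 + x_2 x_3 + ...`. -/
abbrev bent {m : ℕ} (x : Fin (2 * m + 4) → Bool) : Bool := Helper65.NQ.quad x

/-- The number of classes for codes of length `p`. -/
def clsn (p : ℕ) : ℕ := p + (2 * (4 * p + 4) + 6)

theorem clsn_eq (κ : List Bool) : clsn κ.length = cls κ := rfl

/-- The parity of the class `j`. -/
def dpar (s : ℕ) {n : ℕ} (x : Fin n → Bool) (j : ℕ) : Bool :=
  decide (Odd #{i : Fin n | i.1 % s = j ∧ x i = true})

/-- The majority of the class `j`. -/
def dmaj (s : ℕ) {n : ℕ} (x : Fin n → Bool) (j : ℕ) : Bool :=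
  decide (#{i : Fin n | i.1 % s = j ∧ x i = false} < #{i : Fin n | i.1 % s = j ∧ x i = true})

/-- The code written in the header. -/
def hdec (p : ℕ) {n : ℕ} (x : Fin n → Bool) : List Bool :=
  List.ofFn (fun j : Fin p => dmaj (clsn p) x j)

/-- The first truth table of the instance `κ`. -/
def uu (B : List Bool → Bool) (κ : List Bool) (x : Fin (2 * Helper67.EQP.par κ + 4) → Bool) : Bool :=
  B (bstr κ (Sum.inl x, false))

/-- The second truth table of the instance `κ`. -/
def vv (B : List Bool → Bool) (κ : List Bool) (k : Fin (2 * Helper67.EQP.par κ + 4) → Bool) : Bool :=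
  B (bstr κ (Sum.inl k, true))

/-- The bit found by the device at a string with block parities `y`, for the instance `κ`:
the first truth table or (if the bit `c` is 1) the bent function, xor the flag. -/
def fbit (B : List Bool → Bool) (κ : List Bool) (y : ℕ → Bool) : Bool :=
  xor (y (2 * Helper67.EQP.par κ + 5)) (if y (2 * Helper67.EQP.par κ + 4) = true
    then bent (fun i : Fin (2 * Helper67.EQP.par κ + 4) => y i) else uu B κ (fun i => y i))

/-- The bit stored at a string of even length. -/
def dval (B : List Bool → Bool) (p : ℕ) {n : ℕ} (x : Fin n → Bool) : Bool :=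
  fbit B (hdec p x) (fun j => dpar (clsn p) x (p + j))

/-- The length of the code read from a string of even length. -/
def clen (n : ℕ) : ℕ := (Nat.unpair (n / 2)).1

/-- The oracle. -/
noncomputable def newB (B : List Bool → Bool) (s : List Bool) : Bool :=
  decide ((∃ t, s = pad t ∧ B t = true) ∨
    (∃ κ k, s = look (κ ++ List.ofFn k) ∧ xor (bent k) (vv B κ k) = true) ∨
    (s.length % 2 = 0 ∧ 13 * clen s.length + 20 ≤ s.length ∧
      dval B (clen s.length) s.get = true))

section strings

theorem pad_length (t : List Bool) : (pad t).length = 2 * t.length + 1 := by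
  simp [pad]
  omega

theorem look_length (t : List Bool) : (look t).length = 2 * t.length + 1 := by
  simp [look]
  omega

theorem pad_inj {t t' : List Bool} (h : pad t = pad t') : t = t' := by
  have hl := congrArg List.length h
  rw [pad_length, pad_length] at hl
  unfold pad at h
  rw [List.cons.injEq] at h
  exact (List.append_inj h.2 (by omega)).1

theorem look_inj {t t' : List Bool} (h : look t = look t') : t = t' := by
  have hl := congrArg List.length h
  rw [look_length, look_length] at hl
  unfold look at h
  rw [List.cons.injEq] at h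
  exact (List.append_inj h.2 (by omega)).1

theorem pad_ne_look (t t' : List Bool) : pad t ≠ look t' := by
  intro h
  unfold pad look at h
  rw [List.cons.injEq] at h
  exact absurd h.1 (by simp)

theorem lk_length (κ : List Bool) (k : Fin (2 * Helper67.EQP.par κ + 4) → Bool) :
    (κ ++ List.ofFn k).length = 9 * κ.length + 12 := by
  rw [List.length_append, List.length_ofFn]
  have : Helper67.EQP.par κ = 4 * κ.length + 4 := rfl
  omega

theorem lk_inj1 {κ κ' : List Bool} {k : Fin (2 * Helper67.EQP.par κ + 4) → Bool}
    {k' : Fin (2 * Helper67.EQP.par κ' + 4) → Bool}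
    (h : κ ++ List.ofFn k = κ' ++ List.ofFn k') : κ = κ' := by
  have hl := congrArg List.length h
  rw [lk_length, lk_length] at hl
  exact (List.append_inj h (by omega)).1

theorem lk_inj2 {κ : List Bool} {k k' : Fin (2 * Helper67.EQP.par κ + 4) → Bool}
    (h : κ ++ List.ofFn k = κ ++ List.ofFn k') : k = k' :=
  List.ofFn_injective (List.append_inj h rfl).2

theorem hdec_length (p : ℕ) {n : ℕ} (x : Fin n → Bool) : (hdec p x).length = p := by
  unfold hdec
  rw [List.length_ofFn]

theorem card_cast {m n : ℕ} (h : m = n) (x : Fin n → Bool) (s j : ℕ) (b : Bool) :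
    #{i : Fin m | i.1 % s = j ∧ x (Fin.cast h i) = b} = #{i : Fin n | i.1 % s = j ∧ x i = b} := by
  subst h
  rfl

theorem card_get {n : ℕ} (x : Fin n → Bool) (s j : ℕ) (b : Bool) :
    #{i : Fin (List.ofFn x).length | i.1 % s = j ∧ (List.ofFn x).get i = b} =
      #{i : Fin n | i.1 % s = j ∧ x i = b} := by
  rw [← card_cast (List.length_ofFn (f := x)) x s j b]
  congr 1
  ext i
  rw [mem_filter, mem_filter, List.get_ofFn]

theorem dpar_get {n : ℕ} (x : Fin n → Bool) (s j : ℕ) :
    dpar s (List.ofFn x).get j = dpar s x j := by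
  unfold dpar
  rw [card_get]

theorem dmaj_get {n : ℕ} (x : Fin n → Bool) (s j : ℕ) :
    dmaj s (List.ofFn x).get j = dmaj s x j := by
  unfold dmaj
  rw [card_get, card_get]

theorem dval_get (B : List Bool → Bool) (p : ℕ) {n : ℕ} (x : Fin n → Bool) :
    dval B p (List.ofFn x).get = dval B p x := by
  unfold dval hdec
  simp only [dpar_get, dmaj_get]

end strings

section values

variable (B : List Bool → Bool)

theorem newB_pad (t : List Bool) : newB B (pad t) = B t := by
  rw [Bool.eq_iff_iff]
  unfold newB
  rw [decide_eq_true_eq]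
  constructor
  · rintro (⟨t', h1, h2⟩ | ⟨κ, k, h1, _⟩ | ⟨h1, _⟩)
    · rw [pad_inj h1]
      exact h2
    · exact absurd h1 (pad_ne_look _ _)
    · rw [pad_length] at h1
      omega
  · intro h
    exact Or.inl ⟨t, rfl, h⟩

theorem newB_look (κ : List Bool) (k : Fin (2 * Helper67.EQP.par κ + 4) → Bool) :
    newB B (look (κ ++ List.ofFn k)) = xor (bent k) (vv B κ k) := by
  rw [Bool.eq_iff_iff]
  unfold newB
  rw [decide_eq_true_eq]
  constructor
  · rintro (⟨t', h1, h2⟩ | ⟨κ', k', h1, h2⟩ | ⟨h1, _⟩)
    · exact absurd h1.symm (pad_ne_look _ _)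
    · have h3 := lk_inj1 (look_inj h1)
      subst h3
      rw [lk_inj2 (look_inj h1)]
      exact h2
    · rw [look_length] at h1
      omega
  · intro h
    exact Or.inr (Or.inl ⟨κ, k, rfl, h⟩)

theorem newB_even (s : List Bool) (h0 : s.length % 2 = 0)
    (h1 : 13 * clen s.length + 20 ≤ s.length) : newB B s = dval B (clen s.length) s.get := by
  rw [Bool.eq_iff_iff]
  unfold newB
  rw [decide_eq_true_eq]
  constructor
  · rintro (⟨t', h2, _⟩ | ⟨κ', k', h2, _⟩ | ⟨_, _, h2⟩)
    · rw [h2, pad_length] at h0
      omega
    · rw [h2, look_length] at h0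
      omega
    · exact h2
  · intro h
    exact Or.inr (Or.inr ⟨h0, h1, h⟩)

theorem newB_else (s : List Bool) (h1 : ∀ t, s ≠ pad t)
    (h2 : ∀ (κ : List Bool) (k : Fin (2 * Helper67.EQP.par κ + 4) → Bool),
      s ≠ look (κ ++ List.ofFn k))
    (h3 : ¬ (s.length % 2 = 0 ∧ 13 * clen s.length + 20 ≤ s.length)) :
    newB B s = false := by
  unfold newB
  rw [decide_eq_false_iff_not]
  rintro (⟨t, h, _⟩ | ⟨κ, k, h, _⟩ | ⟨h, h', _⟩)
  · exact h1 t h
  · exact h2 κ k h
  · exact h3 ⟨h, h'⟩

theorem clen_size (κ : List Bool) (M : ℕ) : clen (size κ M) = κ.length := by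
  unfold clen size
  rw [Nat.mul_div_cancel_left _ (by norm_num), Nat.unpair_pair]

/-- The oracle at the strings read by the device whose header has the right majorities. -/
theorem newB_device (κ : List Bool) (M : ℕ) (x : Fin (size κ M) → Bool)
    (hsz : 13 * κ.length + 20 ≤ size κ M)
    (hmaj : ∀ j (hj : j < κ.length), dmaj (cls κ) x j = κ[j]) :
    newB B (List.ofFn x) = fbit B κ (fun j => dpar (cls κ) x (κ.length + j)) := by
  have hlen : (List.ofFn x).length = size κ M := List.length_ofFn
  rw [newB_even B _ (by rw [hlen]; unfold size; omega) (by rw [hlen, clen_size]; exact hsz),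
    dval_get, hlen, clen_size]
  unfold dval
  have h1 : hdec κ.length x = κ := by
    unfold hdec
    apply List.ext_getElem
    · rw [List.length_ofFn]
    · intro i h1 h2
      rw [List.getElem_ofFn]
      exact hmaj i h2
  rw [h1]
  rfl

end values

/-- Every query to the new oracle is a constant or a query to the old oracle, up to negation. -/
theorem newB_cases (s : List Bool) :
    (∃ b, ∀ B, newB B s = b) ∨
      ∃ b s', s'.length ≤ s.length ∧ ∀ B : List Bool → Bool, newB B s = xor b (B s') := by
  by_cases h1 : ∃ t, s = pad t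
  · obtain ⟨t, rfl⟩ := h1
    right
    refine ⟨false, t, ?_, fun B => ?_⟩
    · rw [pad_length]
      omega
    · rw [newB_pad, Bool.false_xor]
  by_cases h2 : ∃ (κ : List Bool) (k : Fin (2 * Helper67.EQP.par κ + 4) → Bool),
      s = look (κ ++ List.ofFn k)
  · obtain ⟨κ, k, rfl⟩ := h2
    right
    refine ⟨bent k, bstr κ (Sum.inl k, true), ?_, fun B => ?_⟩
    · rw [look_length, lk_length, bstr_length]
      omega
    · rw [newB_look]
      rfl
  by_cases h3 : s.length % 2 = 0 ∧ 13 * clen s.length + 20 ≤ s.length
  · set κ := hdec (clen s.length) s.get with hκ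
    set y : ℕ → Bool := fun j => dpar (clsn (clen s.length)) s.get (clen s.length + j) with hy
    have hlen : κ.length = clen s.length := hdec_length _ _
    by_cases hc : y (2 * Helper67.EQP.par κ + 4) = true
    · left
      refine ⟨xor (y (2 * Helper67.EQP.par κ + 5))
        (bent (fun i : Fin (2 * Helper67.EQP.par κ + 4) => y i)), fun B => ?_⟩
      rw [newB_even B s h3.1 h3.2, dval, ← hκ, ← hy, fbit, if_pos hc]
    · right
      refine ⟨y (2 * Helper67.EQP.par κ + 5), bstr κ (Sum.inl (fun i => y i), false), ?_,
        fun B => ?_⟩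
      · rw [bstr_length, hlen]
        exact h3.2
      · rw [newB_even B s h3.1 h3.2, dval, ← hκ, ← hy, fbit, if_neg hc]
        rfl
  left
  refine ⟨false, fun B => newB_else B s ?_ ?_ h3⟩
  · intro t h
    exact h1 ⟨t, h⟩
  · intro κ k h
    exact h2 ⟨κ, k, h⟩

/-- The translation as a function. -/
theorem exists_sigma : ∃ σ : List Bool → Bool ⊕ (Bool × List Bool),
    (∀ s b s', σ s = Sum.inr (b, s') → s'.length ≤ s.length) ∧ ∀ B, sval σ B = newB B := by
  have h : ∀ s, ∃ r : Bool ⊕ (Bool × List Bool), (∀ b s', r = Sum.inr (b, s') →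
      s'.length ≤ s.length) ∧ ∀ B, rval B r = newB B s := by
    intro s
    rcases newB_cases s with ⟨b, hb⟩ | ⟨b, s', hl, hb⟩
    · exact ⟨Sum.inl b, fun b' s' h => absurd h (by simp), fun B => (hb B).symm⟩
    · refine ⟨Sum.inr (b, s'), fun b' s'' h => ?_, fun B => (hb B).symm⟩
      have h1 := Sum.inr_injective h
      have h2 := congrArg Prod.snd h1
      simp only at h2
      rw [← h2]
      exact hl
  choose σ h1 h2 using h
  exact ⟨σ, fun s b s' => h1 s b s', fun B => funext fun s => h2 s B⟩

end Pool.Agent.Helper73.NQ
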