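import Pool.Agent.Helper67.EL.OMain
import Pool.Agent.Helper73.NQ.Tau
import Pool.Agent.Helper73.NQ.Mach
import Pool.Agent.Helper80.NQ.Iface

set_option autoImplicit false

/-!
# The world of the noisy device
-/

namespace Pool.Agent.Helper73.NQ

open Finset Function Classical
open Pool.Agent.Helper67.EQP (DTree OFun VerySlow Alt Idx Yes No posn B0 bstr Cont)
open Pool.Agent.Helper67.LB Pool.Agent.Helper67.EL
open Pool.Agent.Helper80.NQ (pad look cls size Stores)

/-- The world: the oracle `B` contains compensated Forrelation instances `X κ` which encode the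
bits `bit κ`, and the oracle `newB B` has all the properties of the theorem on exact levels. -/
theorem world_aux (k : ℕ) (fin : Prop) (N : ℕ → XMachine (k + 1)) (F : ℕ → OFun) {t : ℕ → ℕ}
    (ht : VerySlow t) (M : (m : ℕ) → ℕ → TMachine t m) :
    ∃ (B : List Bool → Bool) (X : Cont) (bit : List Bool → Bool),
      (∀ κ a, B (bstr κ a) = true ↔ ∃ i, posn (Helper67.EQP.par κ) a = some i ∧ X κ i = true) ∧
      (∀ κ, bit κ = true → Yes (Helper67.EQP.par κ) (X κ)) ∧
      (∀ κ, bit κ = false → No (Helper67.EQP.par κ) (X κ)) ∧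
      (fin → ∀ i x, Alt k true (fun y : Fin k → Fin (wid ((N i).code i x)) → Bool =>
        newB B (pad (mstr ((N i).code i x) y)) = true) ↔ (N i).Accepts (newB B) x) ∧
      (∀ j, (fin → j < k) → ∀ i, {n | (M j i).Accepts (newB B) n} ≠ {n | Alt (j + 1) true
        (fun y : Fin (j + 1) → Fin (4 * (2 * n)) → Bool =>
          newB B (pad (fstr n y)) = true)}) ∧
      (∀ i x, bit ((F i).code i x) = (F i).F (newB B) x) ∧
      {n | bit (List.replicate n true) = true}.Infinite ∧
      ∀ m i, {n | (M m i).Accepts (newB B) n} ⊆ {n | bit (List.replicate n true) = true} →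
        {n | (M m i).Accepts (newB B) n}.Finite := by
  obtain ⟨σ, hσ, hv⟩ := exists_sigma
  set N' : ℕ → XMachine (k + 1) := fun i => xsub hσ (N i) with hN'
  set F' : ℕ → OFun := fun i => osub hσ (F i) with hF'
  set M' : (m : ℕ) → ℕ → TMachine t m := fun m i => msub2 hσ (M m i) with hM'
  obtain ⟨δ, τ, β, C, h1, h2, h3⟩ := exists_worldO k fin N' F' ht M'
  set X := XO k fin N' F' δ τ β C with hX
  set B := BO k fin N' X τ C with hB
  have hvB : sval σ B = newB B := hv B
  have hspec : ∀ κ, X κ = if BitO k fin N' F' τ β C X κ then (δ κ).1.1 else (δ κ).2.1 := by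
    intro κ
    have h := XO_spec k fin N' F' δ τ β C κ
    rw [← hX] at h
    exact h
  refine ⟨B, X, fun κ => decide (BitO k fin N' F' τ β C X κ), BO_bstr k fin N' X τ C, ?_, ?_, ?_, ?_,
    ?_, ?_, ?_⟩
  · intro κ hκ
    rw [hspec, if_pos (of_decide_eq_true hκ)]
    exact (δ κ).1.2
  · intro κ hκ
    rw [hspec, if_neg (of_decide_eq_false hκ)]
    exact (δ κ).2.2
  · intro hfin i x
    simp only [newB_pad]
    have h4 := BO_tt k fin N' hfin X τ C i x
    rw [← hB] at h4
    refine h4.trans ?_
    rw [hN']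
    change (xsub hσ (N i)).Accepts B x ↔ _
    rw [xsub_accepts, hvB]
  · intro j hj i heq
    obtain ⟨n, hn⟩ := h3 j i hj
    apply hn
    have h5 := Set.ext_iff.mp heq n
    simp only [Set.mem_ofPred_eq, newB_pad] at h5
    change (msub2 hσ (M j i)).Accepts B n ↔ _
    rw [msub2_accepts, hvB]
    exact h5
  · intro i x
    beta_reduce
    have h6 := BitO_code k fin N' F' τ β C X i x
    rw [← hB] at h6
    rw [← hvB]
    rw [Bool.eq_iff_iff, decide_eq_true_eq]
    exact h6
  · simp only [BitO_free, decide_eq_true_eq]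
    exact h1
  · intro m i
    have h7 := h2 m i
    simp only [BitO_free, decide_eq_true_eq]
    have h8 : {n | (M' m i).Accepts B n} = {n | (M m i).Accepts (newB B) n} := by
      ext n
      change (msub2 hσ (M m i)).Accepts B n ↔ (M m i).Accepts (newB B) n
      rw [msub2_accepts, hvB]
    rw [h8] at h7
    exact h7

/-- The world of the noisy device. -/
theorem exists_noisy_world (k : ℕ) (fin : Prop) (N : ℕ → XMachine (k + 1)) (F : ℕ → OFun)
    {t : ℕ → ℕ} (ht : VerySlow t) (M : (m : ℕ) → ℕ → TMachine t m) :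
    ∃ (A : List Bool → Bool) (L : Set ℕ) (bit : List Bool → Bool)
      (X : (κ : List Bool) → Idx (Helper67.EQP.par κ) → Bool),
      (∀ κ, Stores A κ (X κ)) ∧
      (∀ κ, bit κ = true → Yes (Helper67.EQP.par κ) (X κ)) ∧
      (∀ κ, bit κ = false → No (Helper67.EQP.par κ) (X κ)) ∧
      (fin → ∀ i x, Alt k true (fun y : Fin k → Fin (wid ((N i).code i x)) → Bool =>
        A (pad (mstr ((N i).code i x) y)) = true) ↔ (N i).Accepts A x) ∧
      (∀ j, (fin → j < k) → ∀ i, {n | (M j i).Accepts A n} ≠ {n | Alt (j + 1) true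
        (fun y : Fin (j + 1) → Fin (4 * (2 * n)) → Bool => A (pad (fstr n y)) = true)}) ∧
      (∀ i x, bit ((F i).code i x) = (F i).F A x) ∧
      (∀ n, bit (List.replicate n true) = decide (n ∈ L)) ∧
      L.Infinite ∧
      ∀ m i, {n | (M m i).Accepts A n} ⊆ L → {n | (M m i).Accepts A n}.Finite := by
  have key : ∀ (B : List Bool → Bool) (X : Cont), (∀ κ a, B (bstr κ a) = true ↔
      ∃ i, posn (Helper67.EQP.par κ) a = some i ∧ X κ i = true) →
      (∀ κ x, uu B κ x = X κ (Sum.inl (Sum.inl x))) ∧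
      ∀ κ k, vv B κ k = X κ (Sum.inl (Sum.inr k)) := by
    intro B X h
    constructor
    · intro κ x
      rw [Bool.eq_iff_iff, uu, h]
      constructor
      · rintro ⟨i, h1, h2⟩
        have h3 : Sum.inl (Sum.inl x) = i := by simpa [posn] using h1
        rw [h3]
        exact h2
      · intro h1
        exact ⟨_, rfl, h1⟩
    · intro κ x
      rw [Bool.eq_iff_iff, vv, h]
      constructor
      · rintro ⟨i, h1, h2⟩
        have h3 : Sum.inl (Sum.inr x) = i := by simpa [posn] using h1
        rw [h3]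
        exact h2
      · intro h1
        exact ⟨_, rfl, h1⟩
  obtain ⟨B, X, bit, h0, hY, hN, h1, h2, h3, h4, h5⟩ := world_aux k fin N F ht M
  obtain ⟨hu, hvv⟩ := key B X h0
  refine ⟨newB B, {n | bit (List.replicate n true) = true}, bit, X, fun κ => ⟨?_, ?_⟩, hY, hN,
    h1, h2, h3, ?_, h4, h5⟩
  · intro M' x hsz hmaj
    rw [newB_device B κ M' x hsz (fun j hj => hmaj ⟨j, hj⟩), fbit, hu, Bool.xor_comm]
    rfl
  · intro k'
    rw [newB_look, hvv, Bool.xor_comm]
  · intro n
    have h6 : ∀ (P : Prop) (inst : Decidable P) (c : Bool), (c = true ↔ P) →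
        c = @decide P inst := by
      intro P inst c h
      rw [Bool.eq_iff_iff, decide_eq_true_eq]
      exact h
    exact h6 _ _ _ Iff.rfl

end Pool.Agent.Helper73.NQ
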